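import Mathlib
import Pool.Agent.H6Rect

set_option autoImplicit false

namespace Pool.Agent.Results.MP_46c3d4_gt.RectLindelof

universe u

def Rectifiable (X : Type u) [TopologicalSpace X] : Prop :=
  ∃ (e : X) (φ : X × X ≃ₜ X × X), (∀ p : X × X, (φ p).1 = p.1) ∧ ∀ x : X, φ (x, x) = (x, e)

/-- The covering condition of an Arhangel'skii p-space, in the Stone-Cech compactification. -/
def PSpace (X : Type u) [TopologicalSpace X] : Prop :=
  ∃ γ : ℕ → Set (Set (StoneCech X)), (∀ n, ∀ U ∈ γ n, IsOpen U) ∧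
    (∀ n, ∀ x : X, ∃ U ∈ γ n, stoneCechUnit x ∈ U) ∧
    ∀ x : X, (⋂ n, ⋃₀ {U | U ∈ γ n ∧ stoneCechUnit x ∈ U}) ⊆
      Set.range (stoneCechUnit : X → StoneCech X)

def CCC (X : Type u) [TopologicalSpace X] : Prop :=
  ∀ S : Set (Set X), (∀ V ∈ S, IsOpen V ∧ V.Nonempty) → S.PairwiseDisjoint id → S.Countable

theorem result (X : Type u) [TopologicalSpace X] [T35Space X] (h1 : Rectifiable X)
    (h2 : PSpace X) :
    (CCC X → LindelofSpace X) ∧ (TopologicalSpace.SeparableSpace X → LindelofSpace X) := by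
  obtain ⟨p, q, F, U, a1, a2, a3, a4, a5, a6, -, a8, a9⟩ := H6Rect.setup h1 h2
  have h : CCC X → LindelofSpace X := H6Rect.lind p q F U a1 a2 a3 a4 a5 a6 a8 a9
  exact ⟨h, fun _ => h fun S hS hd =>
    hd.countable_of_isOpen (fun V hV => (hS V hV).1) (fun V hV => (hS V hV).2)⟩

end Pool.Agent.Results.MP_46c3d4_gt.RectLindelof
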